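import Pool.Agent.Helper73.RF.GoalsC

/-!
Packet GEO of project RF (MP_c98eff_gt): the curvature in the moving frame.
-/

set_option autoImplicit false

open Finset

namespace Pool.Agent.Helper9.RF

open Pool.Agent.Helper73.RF

namespace Geo

variable {𝒜 : Type} [CommRing 𝒜] [Algebra ℝ 𝒜]

/-- entrywise derivative of a matrix -/
def dm (D : Derivation ℝ 𝒜 𝒜) (M : Matrix (Fin 3) (Fin 3) 𝒜) : Matrix (Fin 3) (Fin 3) 𝒜 :=
  M.map D

theorem dm_apply (D : Derivation ℝ 𝒜 𝒜) (M : Matrix (Fin 3) (Fin 3) 𝒜) (i j : Fin 3) :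
    dm D M i j = D (M i j) := rfl

theorem dm_mul (D : Derivation ℝ 𝒜 𝒜) (M N : Matrix (Fin 3) (Fin 3) 𝒜) :
    dm D (M * N) = dm D M * N + M * dm D N := by
  ext i j
  simp only [dm_apply, Matrix.mul_apply, Matrix.add_apply, map_sum, Derivation.leibniz,
    smul_eq_mul]
  rw [← Finset.sum_add_distrib]
  exact Finset.sum_congr rfl (fun k _ => by ring)

theorem dm_sub (D : Derivation ℝ 𝒜 𝒜) (M N : Matrix (Fin 3) (Fin 3) 𝒜) :
    dm D (M - N) = dm D M - dm D N := by
  ext i j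
  simp [dm_apply]

/-- the frame fields as derivations -/
noncomputable def FD (E : Fin 3 → Derivation ℝ 𝒜 𝒜) (A : Fin 3 → Fin 3 → 𝒜) (a : Fin 3) :
    Derivation ℝ 𝒜 𝒜 := ∑ i, A a i • E i

theorem FD_apply (E : Fin 3 → Derivation ℝ 𝒜 𝒜) (A : Fin 3 → Fin 3 → 𝒜) (a : Fin 3) (f : 𝒜) :
    FD E A a f = FR.Fd E A a f := by
  simp [FD, FR.Fd, Fin.sum_univ_three]

/-- gauge transformation of the curvature, abstract form -/
theorem gauge (F : Fin 3 → Derivation ℝ 𝒜 𝒜) (A : Matrix (Fin 3) (Fin 3) 𝒜)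
    (G K : Fin 3 → Matrix (Fin 3) (Fin 3) 𝒜) (C : Fin 3 → Fin 3 → Fin 3 → 𝒜)
    (hA : ∀ a, dm (F a) A = G a * A - A * K a)
    (hC : ∀ c d, dm (F c) (dm (F d) A) - dm (F d) (dm (F c) A)
      = ∑ e, C c d e • dm (F e) A) (c d : Fin 3) :
    A * (dm (F c) (K d) - dm (F d) (K c) + K d * K c - K c * K d - ∑ e, C c d e • K e)
      = (dm (F c) (G d) - dm (F d) (G c) + G d * G c - G c * G d - ∑ e, C c d e • G e) * A := by
  have h1 : ∀ a b, dm (F a) (dm (F b) A) = dm (F a) (G b) * A + G b * (G a * A - A * K a)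
      - ((G a * A - A * K a) * K b + A * dm (F a) (K b)) := by
    intro a b
    rw [hA b, dm_sub, dm_mul, dm_mul, hA a]
  have h2 := hC c d
  rw [h1, h1] at h2
  have h3 : ∑ e, C c d e • dm (F e) A = (∑ e, C c d e • G e) * A - A * ∑ e, C c d e • K e := by
    rw [Finset.sum_mul, Finset.mul_sum, ← Finset.sum_sub_distrib]
    refine Finset.sum_congr rfl (fun e _ => ?_)
    rw [hA e, smul_sub, Matrix.smul_mul, Matrix.mul_smul]
  rw [h3] at h2
  have h4 : A * (dm (F c) (K d) - dm (F d) (K c) + K d * K c - K c * K d - ∑ e, C c d e • K e)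
      - (dm (F c) (G d) - dm (F d) (G c) + G d * G c - G c * G d - ∑ e, C c d e • G e) * A
      = - ((dm (F c) (G d) * A + G d * (G c * A - A * K c)
      - ((G c * A - A * K c) * K d + A * dm (F c) (K d)))
      - (dm (F d) (G c) * A + G c * (G d * A - A * K d)
      - ((G d * A - A * K d) * K c + A * dm (F d) (K c)))
      - ((∑ e, C c d e • G e) * A - A * ∑ e, C c d e • K e)) := by
    noncomm_ring
  rw [h2, sub_self, neg_zero] at h4
  exact sub_eq_zero.mp h4

theorem two_smul' (x : 𝒜) : (2 : ℝ) • x = 2 * x := by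
  rw [Algebra.smul_def, map_ofNat]

/-- connection matrices of Koszul in the frame directions -/
noncomputable def Km (E : Fin 3 → Derivation ℝ 𝒜 𝒜) (A θ : Fin 3 → Fin 3 → 𝒜) (a : Fin 3) :
    Matrix (Fin 3) (Fin 3) 𝒜 := Matrix.of fun j l => ∑ i, A a i * FR.KE E A θ i j l

/-- connection matrices in the moving frame -/
noncomputable def Gm (E : Fin 3 → Derivation ℝ 𝒜 𝒜) (A θ : Fin 3 → Fin 3 → 𝒜) (a : Fin 3) :
    Matrix (Fin 3) (Fin 3) 𝒜 := Matrix.of fun b c => FR.Gam E A θ a b c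

theorem C_mul {E : Fin 3 → Derivation ℝ 𝒜 𝒜} {A θ : Fin 3 → Fin 3 → 𝒜} (h : FrameHyp E A θ)
    (c d j : Fin 3) : ∑ e, FR.C E A θ c d e * A e j =
      FR.Fd E A c (A d j) - FR.Fd E A d (A c j)
        + (2 : ℝ) • ∑ i, ∑ k, eps i k j • (A c i * A d k) := by
  have h1 : ∀ m, ∑ e, θ m e * A e j = if m = j then 1 else 0 := fun m => h.tA m j
  calc ∑ e, FR.C E A θ c d e * A e j
      = ∑ e, ∑ m, (FR.Fd E A c (A d m) - FR.Fd E A d (A c m)
        + (2 : ℝ) • ∑ i, ∑ k, eps i k m • (A c i * A d k)) * (θ m e * A e j) := by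
        refine Finset.sum_congr rfl (fun e _ => ?_)
        unfold FR.C
        rw [Finset.sum_mul]
        exact Finset.sum_congr rfl (fun m _ => by ring)
    _ = ∑ m, (FR.Fd E A c (A d m) - FR.Fd E A d (A c m)
        + (2 : ℝ) • ∑ i, ∑ k, eps i k m • (A c i * A d k)) * ∑ e, θ m e * A e j := by
        rw [Finset.sum_comm]
        refine Finset.sum_congr rfl (fun m _ => ?_)
        rw [Finset.mul_sum]
    _ = _ := by
        simp only [h1]
        simp

theorem Rh_eq {E : Fin 3 → Derivation ℝ 𝒜 𝒜} {A θ : Fin 3 → Fin 3 → 𝒜} (h : FrameHyp E A θ)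
    (c d k l : Fin 3) :
    (dm (FD E A c) (Km E A θ d) - dm (FD E A d) (Km E A θ c) + Km E A θ d * Km E A θ c
      - Km E A θ c * Km E A θ d - ∑ e, FR.C E A θ c d e • Km E A θ e) k l
      = ∑ i, ∑ j, A c i * A d j * FR.RE E A θ i j k l := by
  have h1 : (∑ e, FR.C E A θ c d e • Km E A θ e) k l
      = ∑ j, (FR.Fd E A c (A d j) - FR.Fd E A d (A c j)
        + (2 : ℝ) • ∑ i, ∑ m, eps i m j • (A c i * A d m)) * FR.KE E A θ j k l := by
    simp only [← C_mul h]
    rw [Matrix.sum_apply]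
    simp only [Matrix.smul_apply, Km, Matrix.of_apply, smul_eq_mul, Finset.mul_sum,
      Finset.sum_mul]
    rw [Finset.sum_comm]
    exact Finset.sum_congr rfl (fun m _ => Finset.sum_congr rfl (fun e _ => by ring))
  simp only [Matrix.sub_apply, Matrix.add_apply, h1]
  simp only [dm_apply, FD_apply, Matrix.mul_apply, Km, Matrix.of_apply, FR.RE]
  generalize FR.KE E A θ = κ
  simp only [FR.Fd, Fin.sum_univ_three, map_add, Derivation.leibniz, smul_eq_mul, two_smul']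
  simp [eps]
  ring

theorem Gh_eq (E : Fin 3 → Derivation ℝ 𝒜 𝒜) (A θ : Fin 3 → Fin 3 → 𝒜)
    (hG : ∀ a b c, FR.Gam E A θ a b c = ∑ k, eps k b c • FR.om E A θ a k) (c d b f : Fin 3) :
    (dm (FD E A c) (Gm E A θ d) - dm (FD E A d) (Gm E A θ c) + Gm E A θ d * Gm E A θ c
      - Gm E A θ c * Gm E A θ d - ∑ e, FR.C E A θ c d e • Gm E A θ e) b f
      = ∑ k, eps k b f • FR.Om E A θ c d k := by
  have h1 : (∑ e, FR.C E A θ c d e • Gm E A θ e) b f
      = ∑ e, FR.C E A θ c d e * ∑ k, eps k b f • FR.om E A θ e k := by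
    rw [Matrix.sum_apply]
    simp only [Matrix.smul_apply, Gm, Matrix.of_apply, smul_eq_mul, hG]
  simp only [Matrix.sub_apply, Matrix.add_apply, h1]
  simp only [dm_apply, FD_apply, Matrix.mul_apply, Gm, Matrix.of_apply, hG, FR.Om]
  generalize FR.om E A θ = ω
  generalize FR.C E A θ = C
  have hF : ∀ a (x y z : 𝒜), FR.Fd E A a (x + y + z) = FR.Fd E A a x + FR.Fd E A a y
      + FR.Fd E A a z := by
    intro a x y z
    rw [← FD_apply, ← FD_apply, ← FD_apply, ← FD_apply, map_add, map_add]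
  have hF2 : ∀ a (x : 𝒜), FR.Fd E A a (-x) = - FR.Fd E A a x := by
    intro a x
    rw [← FD_apply, ← FD_apply, map_neg]
  have hF3 : ∀ a, FR.Fd E A a 0 = 0 := by
    intro a
    rw [← FD_apply, map_zero]
  simp only [Fin.sum_univ_three]
  fin_cases b <;> fin_cases f <;> simp [eps, hF2, hF3] <;> ring

theorem hAm {E : Fin 3 → Derivation ℝ 𝒜 𝒜} {A θ : Fin 3 → Fin 3 → 𝒜}
    (hL : ∀ a b l, FR.Fd E A a (A b l) + ∑ i, ∑ j, A a i * A b j * FR.KE E A θ i j l
      = ∑ c, FR.Gam E A θ a b c * A c l) (a : Fin 3) :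
    dm (FD E A a) (Matrix.of A) = Gm E A θ a * Matrix.of A - Matrix.of A * Km E A θ a := by
  ext b l
  simp only [dm_apply, FD_apply, Matrix.sub_apply, Matrix.mul_apply, Gm, Km, Matrix.of_apply]
  rw [← hL a b l, eq_sub_iff_add_eq]
  congr 1
  rw [Finset.sum_comm]
  refine Finset.sum_congr rfl (fun j _ => ?_)
  rw [Finset.mul_sum]
  exact Finset.sum_congr rfl (fun i _ => by ring)

theorem hCm {E : Fin 3 → Derivation ℝ 𝒜 𝒜} {A θ : Fin 3 → Fin 3 → 𝒜}
    (hF : ∀ a b f, FR.Fd E A a (FR.Fd E A b f) - FR.Fd E A b (FR.Fd E A a f)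
      = ∑ c, FR.C E A θ a b c * FR.Fd E A c f) (c d : Fin 3) :
    dm (FD E A c) (dm (FD E A d) (Matrix.of A)) - dm (FD E A d) (dm (FD E A c) (Matrix.of A))
      = ∑ e, FR.C E A θ c d e • dm (FD E A e) (Matrix.of A) := by
  ext b l
  rw [Matrix.sum_apply]
  simp only [dm_apply, FD_apply, Matrix.sub_apply, Matrix.smul_apply, Matrix.of_apply,
    smul_eq_mul]
  exact hF c d (A b l)

end Geo

theorem geo (hFra : FraStmt) (hLcr : LcrStmt) : GeoStmt := by
  intro 𝒜 _ _ E A θ h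
  obtain ⟨f1, f2, f3, f4, f5, f6, f7⟩ := hFra 𝒜 E A θ h
  obtain ⟨l1, l2, l3⟩ := hLcr 𝒜 E A θ h
  have g1 : ∀ c d b l, ∑ i, ∑ j, ∑ k, A c i * A d j * A b k * FR.RE E A θ i j k l
      = ∑ f, (∑ k, eps k b f • FR.Om E A θ c d k) * A f l := by
    intro c d b l
    have e := Geo.gauge (Geo.FD E A) (Matrix.of A) (Geo.Gm E A θ) (Geo.Km E A θ)
      (FR.C E A θ) (Geo.hAm l1) (Geo.hCm f1) c d
    have e2 := congrFun (congrFun e b) l
    rw [Matrix.mul_apply, Matrix.mul_apply] at e2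
    simp only [Geo.Rh_eq h, Geo.Gh_eq E A θ f4, Matrix.of_apply] at e2
    rw [← e2]
    have : ∀ i, ∑ j, ∑ k, A c i * A d j * A b k * FR.RE E A θ i j k l
        = ∑ k, ∑ j, A c i * A d j * A b k * FR.RE E A θ i j k l := fun i => Finset.sum_comm
    simp only [this]
    rw [Finset.sum_comm]
    refine Finset.sum_congr rfl (fun k _ => ?_)
    rw [Finset.mul_sum]
    refine Finset.sum_congr rfl (fun i _ => ?_)
    rw [Finset.mul_sum]
    exact Finset.sum_congr rfl (fun j _ => by ring)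
  have g2 : ∀ c d b f, ∑ i, ∑ j, ∑ k, ∑ l, A c i * A d j * A b k * A f l
        * (∑ m, FR.RE E A θ i j k m * FR.g θ m l)
      = -∑ k, ∑ l, (eps c d l * eps k b f) • FR.N E A θ l k := by
    intro c d b f
    have e1 : ∑ i, ∑ j, ∑ k, ∑ l, A c i * A d j * A b k * A f l
        * (∑ m, FR.RE E A θ i j k m * FR.g θ m l)
        = ∑ l, ∑ m, (∑ i, ∑ j, ∑ k, A c i * A d j * A b k * FR.RE E A θ i j k m)
          * (FR.g θ m l * A f l) := by
      simp only [Fin.sum_univ_three]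
      ring
    rw [e1]
    simp only [g1]
    have e2 : ∑ l, ∑ m, (∑ e, (∑ k, eps k b e • FR.Om E A θ c d k) * A e m)
          * (FR.g θ m l * A f l)
        = ∑ e, (∑ k, eps k b e • FR.Om E A θ c d k) * ∑ m, ∑ l, A e m * FR.g θ m l * A f l := by
      generalize (fun e => ∑ k, eps k b e • FR.Om E A θ c d k) = w
      simp only [Fin.sum_univ_three]
      ring
    rw [e2]
    simp only [l3]
    have e3 : ∑ e, (∑ k, eps k b e • FR.Om E A θ c d k) * (if e = f then (1:𝒜) else 0)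
        = ∑ k, eps k b f • FR.Om E A θ c d k := by
      simp
    rw [e3]
    simp only [f6, smul_neg, Finset.smul_sum, smul_smul]
    rw [Finset.sum_neg_distrib]
    congr 1
    exact Finset.sum_congr rfl (fun k _ => Finset.sum_congr rfl (fun l _ => by
      rw [mul_comm]))
  refine ⟨g1, g2, ?_⟩
  intro d b
  have e1 : ∑ j, ∑ k, A d j * A b k * ∑ i, FR.RE E A θ i j k i
      = ∑ c, ∑ p, θ p c * ∑ i, ∑ j, ∑ k, A c i * A d j * A b k * FR.RE E A θ i j k p := by
    have e2 : ∀ p, ∑ c, θ p c * ∑ i, ∑ j, ∑ k, A c i * A d j * A b k * FR.RE E A θ i j k p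
        = ∑ i, (∑ c, θ p c * A c i) * ∑ j, ∑ k, A d j * A b k * FR.RE E A θ i j k p := by
      intro p
      simp only [Fin.sum_univ_three]
      ring
    rw [Finset.sum_comm (s := (Finset.univ : Finset (Fin 3)))
      (f := fun c p => θ p c * ∑ i, ∑ j, ∑ k, A c i * A d j * A b k * FR.RE E A θ i j k p)]
    simp only [e2, h.tA]
    simp only [Fin.sum_univ_three]
    simp
    ring
  rw [e1]
  simp only [g1]
  have e3 : ∑ c, ∑ p, θ p c * ∑ f, (∑ k, eps k b f • FR.Om E A θ c d k) * A f p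
      = ∑ c, ∑ f, (∑ k, eps k b f • FR.Om E A θ c d k) * ∑ p, A f p * θ p c := by
    refine Finset.sum_congr rfl (fun c _ => ?_)
    simp only [Finset.mul_sum]
    rw [Finset.sum_comm]
    exact Finset.sum_congr rfl (fun f _ => Finset.sum_congr rfl (fun p _ => by ring))
  rw [e3]
  simp only [h.At]
  have e4 : ∀ c, ∑ f, (∑ k, eps k b f • FR.Om E A θ c d k) * (if f = c then (1:𝒜) else 0)
      = ∑ k, eps k b c • FR.Om E A θ c d k := by
    intro c
    simp
  simp only [e4, f6]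
  generalize FR.N E A θ = N
  simp only [Fin.sum_univ_three]
  fin_cases d <;> fin_cases b <;> simp [eps] <;> ring

end Pool.Agent.Helper9.RF
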