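import Pool.Agent.Helper64.RF.GoalsF

/-!
Packet BDR of project RF (MP_c98eff_gt): the boundary of the region has small image.
-/

open Quaternion MeasureTheory

open scoped RealInnerProductSpace

namespace Pool.Agent.Helper9.RF

open Pool.Agent.Helper64.RF

/-- Euclidean inner product of W. -/
noncomputable def dt (a b : W) : ℝ := a 0 * b 0 + a 1 * b 1 + a 2 * b 2

theorem dt_le {a b : W} {R : ℝ} (ha : Helper64.RF.sq a = R ^ 2) (hb : Helper64.RF.sq b = R ^ 2) : dt a b ≤ R ^ 2 := by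
  unfold Helper64.RF.sq at ha hb
  unfold dt
  nlinarith [sq_nonneg (a 0 - b 0), sq_nonneg (a 1 - b 1), sq_nonneg (a 2 - b 2)]

theorem neg_le_dt {a b : W} {R : ℝ} (ha : Helper64.RF.sq a = R ^ 2) (hb : Helper64.RF.sq b = R ^ 2) :
    - R ^ 2 ≤ dt a b := by
  unfold Helper64.RF.sq at ha hb
  unfold dt
  nlinarith [sq_nonneg (a 0 + b 0), sq_nonneg (a 1 + b 1), sq_nonneg (a 2 + b 2)]

theorem der_bd (cay : CAY) {g : ℍ[ℝ] → W →L[ℝ] W →L[ℝ] ℝ} {C0 R ε : ℝ} {Φ : W → ℍ[ℝ]}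
    {Y : W → W →L[ℝ] ℍ[ℝ]} (hg : ∀ x, x ≠ 0 → ∀ v, g x v v ≤ C0 * Helper64.RF.sq v) (hC : 0 < C0)
    (hR : 0 < R) (hε : 0 ≤ ε) (hD : Dev g R ε Φ Y) {ζ : W} (h1 : R ^ 2 / 2 ≤ Helper64.RF.sq ζ)
    (h2 : Helper64.RF.sq ζ ≤ R ^ 2) (a : W) :
    ‖fderiv ℝ Φ ζ a‖ ≤ (4 * Real.sqrt C0 / R ^ 2 + ε) * Real.sqrt (Helper64.RF.sq a) := by
  have e1 : ‖fderiv ℝ Φ ζ a - Y ζ (Jc ζ a)‖ ≤ ε * Real.sqrt (Helper64.RF.sq a) := by
    refine (hD.der ζ h2 a).trans ?_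
    refine mul_le_mul_of_nonneg_left ?_ hε
    exact Real.le_sqrt_of_sq_le (norm_sq_le_sq a)
  have e2 : ‖Y ζ (Jc ζ a)‖ ≤ 4 * Real.sqrt C0 / R ^ 2 * Real.sqrt (Helper64.RF.sq a) := by
    have hnn : R ^ 2 / 2 ≤ nn ζ := by unfold nn; linarith
    have hR2 : 0 < R ^ 2 := by positivity
    have hnn0 : 0 < nn ζ := by linarith
    have k1 : ‖Y ζ (Jc ζ a)‖ ^ 2 ≤ C0 * (4 / nn ζ ^ 2 * Helper64.RF.sq a) := by
      rw [← cay.2.2.2.1 ζ a, ← real_inner_self_eq_norm_sq, hD.gram]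
      exact hg _ (cay.1 ζ) _
    have k2 : 4 / nn ζ ^ 2 ≤ 16 / (R ^ 2) ^ 2 := by
      rw [div_le_div_iff₀ (by positivity) (by positivity)]
      nlinarith
    have k3 : (4 * Real.sqrt C0 / R ^ 2 * Real.sqrt (Helper64.RF.sq a)) ^ 2
        = C0 * (16 / (R ^ 2) ^ 2 * Helper64.RF.sq a) := by
      rw [mul_pow, div_pow, mul_pow, Real.sq_sqrt hC.le, Real.sq_sqrt (sq_nonneg' a)]
      ring
    apply le_of_sq_le_sq _ (by positivity)
    rw [k3]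
    refine k1.trans ?_
    refine mul_le_mul_of_nonneg_left ?_ hC.le
    exact mul_le_mul_of_nonneg_right k2 (sq_nonneg' a)
  calc ‖fderiv ℝ Φ ζ a‖ = ‖(fderiv ℝ Φ ζ a - Y ζ (Jc ζ a)) + Y ζ (Jc ζ a)‖ := by
        rw [sub_add_cancel]
    _ ≤ ‖fderiv ℝ Φ ζ a - Y ζ (Jc ζ a)‖ + ‖Y ζ (Jc ζ a)‖ := norm_add_le _ _
    _ ≤ _ := by rw [add_mul]; linarith

theorem step (cay : CAY) {g : ℍ[ℝ] → W →L[ℝ] W →L[ℝ] ℝ} {C0 R ε : ℝ} {Φ : W → ℍ[ℝ]}
    {Y : W → W →L[ℝ] ℍ[ℝ]} (hg : ∀ x, x ≠ 0 → ∀ v, g x v v ≤ C0 * Helper64.RF.sq v) (hC : 0 < C0)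
    (hR : 0 < R) (hε : 0 ≤ ε) (hD : Dev g R ε Φ Y) {ξ η : W} (h1 : Helper64.RF.sq ξ = R ^ 2)
    (h2 : Helper64.RF.sq η = R ^ 2) (h3 : 0 ≤ dt ξ η) :
    ‖Φ η - Φ ξ‖ ≤ 6 * Real.sqrt C0 / R + 3 / 2 * (R * ε) := by
  have hd : ∀ t : ℝ, HasDerivAt (fun t : ℝ => Φ (ξ + t • (η - ξ)))
      (fderiv ℝ Φ (ξ + t • (η - ξ)) (η - ξ)) t := by
    intro t
    have k1 : HasDerivAt (fun t : ℝ => ξ + t • (η - ξ)) (η - ξ) t := by
      simpa using ((hasDerivAt_id t).smul_const (η - ξ)).const_add ξ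
    have k2 : HasFDerivAt Φ (fderiv ℝ Φ (ξ + t • (η - ξ))) (ξ + t • (η - ξ)) :=
      ((hD.smooth.differentiable (by simp)) _).hasFDerivAt
    exact k2.comp_hasDerivAt t k1
  have hsq : ∀ t : ℝ, Helper64.RF.sq (ξ + t • (η - ξ)) =
      (1 - t) ^ 2 * R ^ 2 + t ^ 2 * R ^ 2 + 2 * t * (1 - t) * dt ξ η := by
    intro t
    have : Helper64.RF.sq (ξ + t • (η - ξ)) = (1 - t) ^ 2 * Helper64.RF.sq ξ + t ^ 2 * Helper64.RF.sq η + 2 * t * (1 - t) * dt ξ η := by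
      simp only [Helper64.RF.sq, dt, Pi.add_apply, Pi.smul_apply, Pi.sub_apply, smul_eq_mul]
      ring
    rw [this, h1, h2]
  have hle := dt_le h1 h2
  have hs1 : Helper64.RF.sq (η - ξ) ≤ 2 * R ^ 2 := by
    have : Helper64.RF.sq (η - ξ) = Helper64.RF.sq ξ + Helper64.RF.sq η - 2 * dt ξ η := by
      simp only [Helper64.RF.sq, dt, Pi.sub_apply]
      ring
    rw [this, h1, h2]; linarith
  have hs2 : Real.sqrt (Helper64.RF.sq (η - ξ)) ≤ 3 / 2 * R := by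
    apply Real.sqrt_le_iff.mpr
    constructor
    · positivity
    · nlinarith [sq_nonneg R]
  have hb : ∀ t ∈ Set.Ico (0:ℝ) 1, ‖fderiv ℝ Φ (ξ + t • (η - ξ)) (η - ξ)‖ ≤
      (4 * Real.sqrt C0 / R ^ 2 + ε) * (3 / 2 * R) := by
    intro t ht
    have ht0 : 0 ≤ t := ht.1
    have ht1 : 0 ≤ 1 - t := by linarith [ht.2]
    have ht2 : 0 ≤ t * (1 - t) := mul_nonneg ht0 ht1
    have k1 : R ^ 2 / 2 ≤ Helper64.RF.sq (ξ + t • (η - ξ)) := by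
      rw [hsq]
      nlinarith [mul_nonneg ht2 h3, sq_nonneg ((1 - 2 * t) * R)]
    have k2 : Helper64.RF.sq (ξ + t • (η - ξ)) ≤ R ^ 2 := by
      rw [hsq]
      nlinarith [mul_nonneg ht2 (sub_nonneg.mpr hle)]
    refine (der_bd cay hg hC hR hε hD k1 k2 (η - ξ)).trans ?_
    exact mul_le_mul_of_nonneg_left hs2 (by positivity)
  have hm := norm_image_sub_le_of_norm_deriv_le_segment_01' (f := fun t : ℝ => Φ (ξ + t • (η - ξ)))
    (fun t _ => (hd t).hasDerivWithinAt) hb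
  have e1 : Φ (ξ + (1:ℝ) • (η - ξ)) = Φ η := by congr 1; simp
  have e0 : Φ (ξ + (0:ℝ) • (η - ξ)) = Φ ξ := by congr 1; simp
  simp only [e1, e0] at hm
  refine hm.trans (le_of_eq ?_)
  field_simp
  ring

theorem exists_mid {R : ℝ} (hR : 0 < R) {ξ ξ' : W} (h1 : Helper64.RF.sq ξ = R ^ 2) (h2 : Helper64.RF.sq ξ' = R ^ 2) :
    ∃ η : W, Helper64.RF.sq η = R ^ 2 ∧ 0 ≤ dt ξ η ∧ 0 ≤ dt ξ' η := by
  have key : ∃ w : W, Helper64.RF.sq w ≠ 0 ∧ 0 ≤ dt ξ w ∧ 0 ≤ dt ξ' w := by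
    by_cases h : Helper64.RF.sq (ξ + ξ') = 0
    · have h0 : ξ' = - ξ := by
        have := sq_eq_zero' h
        rw [add_comm] at this
        exact eq_neg_of_add_eq_zero_left this
      subst h0
      by_cases h3 : ξ 0 ^ 2 + ξ 1 ^ 2 = 0
      · have a0 : ξ 0 = 0 := by nlinarith [sq_nonneg (ξ 0), sq_nonneg (ξ 1)]
        have a1 : ξ 1 = 0 := by nlinarith [sq_nonneg (ξ 0), sq_nonneg (ξ 1)]
        refine ⟨![1, 0, 0], ?_, ?_, ?_⟩
        · simp [Helper64.RF.sq]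
        · simp [dt, a0]
        · simp [dt, a0]
      · refine ⟨![- ξ 1, ξ 0, 0], ?_, ?_, ?_⟩
        · simp [Helper64.RF.sq]
          intro h4
          apply h3
          linarith
        · simp [dt]
          linarith [mul_comm (ξ 0) (ξ 1)]
        · simp [dt]
          linarith [mul_comm (ξ 0) (ξ 1)]
    · refine ⟨ξ + ξ', h, ?_, ?_⟩
      · have : dt ξ (ξ + ξ') = Helper64.RF.sq ξ + dt ξ ξ' := by
          simp only [dt, Helper64.RF.sq, Pi.add_apply]; ring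
        rw [this, h1]
        linarith [neg_le_dt h1 h2]
      · have : dt ξ' (ξ + ξ') = Helper64.RF.sq ξ' + dt ξ ξ' := by
          simp only [dt, Helper64.RF.sq, Pi.add_apply]; ring
        rw [this, h2]
        linarith [neg_le_dt h1 h2]
  obtain ⟨w, hw, k1, k2⟩ := key
  have hw0 : 0 < Helper64.RF.sq w := lt_of_le_of_ne (sq_nonneg' w) (Ne.symm hw)
  have hs : 0 < Real.sqrt (Helper64.RF.sq w) := Real.sqrt_pos.mpr hw0
  have hl : 0 ≤ R / Real.sqrt (Helper64.RF.sq w) := by positivity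
  refine ⟨(R / Real.sqrt (Helper64.RF.sq w)) • w, ?_, ?_, ?_⟩
  · have : Helper64.RF.sq ((R / Real.sqrt (Helper64.RF.sq w)) • w) = (R / Real.sqrt (Helper64.RF.sq w)) ^ 2 * Helper64.RF.sq w := by
      simp only [Helper64.RF.sq, Pi.smul_apply, smul_eq_mul]; ring
    rw [this, div_pow, Real.sq_sqrt hw0.le, div_mul_cancel₀ _ hw]
  · have : dt ξ ((R / Real.sqrt (Helper64.RF.sq w)) • w) = (R / Real.sqrt (Helper64.RF.sq w)) * dt ξ w := by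
      simp only [dt, Pi.smul_apply, smul_eq_mul]; ring
    rw [this]; exact mul_nonneg hl k1
  · have : dt ξ' ((R / Real.sqrt (Helper64.RF.sq w)) • w) = (R / Real.sqrt (Helper64.RF.sq w)) * dt ξ' w := by
      simp only [dt, Pi.smul_apply, smul_eq_mul]; ring
    rw [this]; exact mul_nonneg hl k2

theorem bdr (cay : CAY) : BDR := by
  intro g C0 R ε Φ Y _ hg hC hR hε hD ξ ξ' h1 h2
  obtain ⟨η, k0, k1, k2⟩ := exists_mid hR h1 h2
  have a1 := step cay hg hC hR hε hD h1 k0 k1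
  have a2 := step cay hg hC hR hε hD h2 k0 k2
  have a3 : ‖Φ ξ - Φ ξ'‖ ≤ ‖Φ η - Φ ξ‖ + ‖Φ η - Φ ξ'‖ := by
    have : Φ ξ - Φ ξ' = (Φ η - Φ ξ') - (Φ η - Φ ξ) := by abel
    rw [this]
    refine (norm_sub_le _ _).trans ?_
    linarith
  refine a3.trans ?_
  have : 12 * Real.sqrt C0 / R = 6 * Real.sqrt C0 / R + 6 * Real.sqrt C0 / R := by ring
  rw [this]
  linarith

end Pool.Agent.Helper9.RF
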