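import Pool.Agent.Helper64.RF.GoalsL

/-!
Packet CRVB of project RF (MP_c98eff_gt): almost constant curvature in terms of the curvature
operator.
-/

open Quaternion

namespace Pool.Agent.Helper9.RF

open Pool.Agent.Helper64.RF

open Pool.Agent.Helper47.RF (eps)

theorem eps_le (i j k : Fin 3) : |eps i j k| ≤ 1 := by
  fin_cases i <;> fin_cases j <;> fin_cases k <;> norm_num [eps, abs_le]

theorem eps_contr (a b c f : Fin 3) : ∑ l, eps a b l * eps l c f =
    (if a = c then 1 else 0) * (if b = f then 1 else 0)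
      - (if b = c then 1 else 0) * (if a = f then 1 else 0) := by
  fin_cases a <;> fin_cases b <;> fin_cases c <;> fin_cases f <;>
    norm_num [eps, Fin.sum_univ_three]

/-- The defect tensor. -/
noncomputable def TT (g : ℍ[ℝ] → W →L[ℝ] W →L[ℝ] ℝ) (G : ℍ[ℝ] → W →L[ℝ] W →L[ℝ] W) (x : ℍ[ℝ])
    (u v z : W) : W := Rm G x u v z - (g x v z • u - g x u z • v)

section lin

variable {g : ℍ[ℝ] → W →L[ℝ] W →L[ℝ] ℝ} {G : ℍ[ℝ] → W →L[ℝ] W →L[ℝ] W} {x : ℍ[ℝ]}

theorem lin1 (v z : W) : IsLinearMap ℝ (fun u => TT g G x u v z) := by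
  constructor
  · intro a b
    simp only [TT, Rm, Ed_add, br_add_left, map_add, add_apply]
    module
  · intro r a
    simp only [TT, Rm, Ed_smul, br_smul_left, map_smul, smul_apply,
      smul_eq_mul]
    module

theorem lin2 (u z : W) : IsLinearMap ℝ (fun v => TT g G x u v z) := by
  constructor
  · intro a b
    simp only [TT, Rm, Ed_add, br_add_right, map_add, add_apply]
    module
  · intro r a
    simp only [TT, Rm, Ed_smul, br_smul_right, map_smul, smul_apply,
      smul_eq_mul]
    module

theorem lin3 (u v : W) : IsLinearMap ℝ (fun z => TT g G x u v z) := by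
  constructor
  · intro a b
    simp only [TT, Rm, map_add]
    module
  · intro r a
    simp only [TT, Rm, map_smul, smul_eq_mul]
    module

theorem expand (A : Fin 3 → W) (a b c : Fin 3 → ℝ) :
    TT g G x (∑ i, a i • A i) (∑ j, b j • A j) (∑ k, c k • A k) =
      ∑ i, ∑ j, ∑ k, (a i * b j * c k) • TT g G x (A i) (A j) (A k) := by
  have h1 : ∀ v z, TT g G x (∑ i, a i • A i) v z = ∑ i, a i • TT g G x (A i) v z := by
    intro v z
    have := map_sum (IsLinearMap.mk' _ (lin1 (g := g) (G := G) (x := x) v z))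
      (fun i => a i • A i) Finset.univ
    simp only [IsLinearMap.mk'_apply] at this
    rw [this]
    exact Finset.sum_congr rfl
      (fun i _ => (lin1 (g := g) (G := G) (x := x) v z).map_smul (a i) (A i))
  have h2 : ∀ u z, TT g G x u (∑ i, b i • A i) z = ∑ i, b i • TT g G x u (A i) z := by
    intro u z
    have := map_sum (IsLinearMap.mk' _ (lin2 (g := g) (G := G) (x := x) u z))
      (fun i => b i • A i) Finset.univ
    simp only [IsLinearMap.mk'_apply] at this
    rw [this]
    exact Finset.sum_congr rfl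
      (fun i _ => (lin2 (g := g) (G := G) (x := x) u z).map_smul (b i) (A i))
  have h3 : ∀ u v, TT g G x u v (∑ i, c i • A i) = ∑ i, c i • TT g G x u v (A i) := by
    intro u v
    have := map_sum (IsLinearMap.mk' _ (lin3 (g := g) (G := G) (x := x) u v))
      (fun i => c i • A i) Finset.univ
    simp only [IsLinearMap.mk'_apply] at this
    rw [this]
    exact Finset.sum_congr rfl
      (fun i _ => (lin3 (g := g) (G := G) (x := x) u v).map_smul (c i) (A i))
  rw [h1]
  refine Finset.sum_congr rfl (fun i _ => ?_)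
  rw [h2, Finset.smul_sum]
  refine Finset.sum_congr rfl (fun j _ => ?_)
  rw [h3, Finset.smul_sum, Finset.smul_sum]
  refine Finset.sum_congr rfl (fun k _ => ?_)
  rw [smul_smul, smul_smul]

theorem orth_expand {A : Fin 3 → W} (hA : Orth g x A) (u : W) :
    u = ∑ a, g x u (A a) • A a := by
  have hli : LinearIndependent ℝ A := by
    rw [Fintype.linearIndependent_iff]
    intro c hc i
    have h1 : g x (∑ j, c j • A j) (A i) = 0 := by rw [hc]; simp
    simp only [map_sum, map_smul, sum_apply, smul_apply,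
      smul_eq_mul] at h1
    simp only [hA _ i] at h1
    simpa using h1
  let b := basisOfLinearIndependentOfCardEqFinrank hli (by simp)
  have hb : ⇑b = A := coe_basisOfLinearIndependentOfCardEqFinrank hli (by simp)
  have h2 : u = ∑ a, b.repr u a • A a := by
    conv_lhs => rw [← b.sum_repr u, hb]
  have h3 : ∀ i, g x u (A i) = b.repr u i := by
    intro i
    conv_lhs => rw [h2]
    simp only [map_sum, map_smul, sum_apply, smul_apply,
      smul_eq_mul]
    simp only [hA _ i]
    simp
  simp only [h3]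
  exact h2

end lin

theorem crvb : CRVB := by
  intro c0 C0 hc0 hC0
  refine ⟨729 * Real.sqrt (3 * C0) ^ 3 * (Real.sqrt c0)⁻¹, by positivity, ?_⟩
  intro g G hg hG hb x hx A N mu hmu hA hN hNm u v z
  have hnA : ∀ f, ‖A f‖ ≤ (Real.sqrt c0)⁻¹ := by
    intro f
    have h1 := (hb x hx (A f)).1
    rw [hA f f, if_pos rfl] at h1
    have h2 := norm_sq_le_sq (A f)
    rw [← Real.sqrt_inv]
    apply Real.le_sqrt_of_sq_le
    rw [← one_div, le_div_iff₀ hc0]
    calc ‖A f‖ ^ 2 * c0 ≤ Helper64.RF.sq (A f) * c0 := mul_le_mul_of_nonneg_right h2 hc0.le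
      _ = c0 * Helper64.RF.sq (A f) := by ring
      _ ≤ 1 := h1
  have hcoef : ∀ (w : W) a, |g x w (A a)| ≤ Real.sqrt (3 * C0) * ‖w‖ := by
    intro w a
    have h1 := (hb x hx w).2
    have h2 := sq_le_norm_sq w
    have h3 : g x w w = ∑ i, g x w (A i) ^ 2 := by
      conv_lhs => rw [orth_expand hA w]
      simp only [map_sum, map_smul, sum_apply,
        smul_apply, smul_eq_mul]
      refine Finset.sum_congr rfl (fun i _ => ?_)
      simp only [hA _ i]
      simp [pow_two]
    have h4 : g x w (A a) ^ 2 ≤ g x w w := by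
      rw [h3]
      exact Finset.single_le_sum (f := fun i => g x w (A i) ^ 2) (fun i _ => sq_nonneg _)
        (Finset.mem_univ a)
    have h5 : Real.sqrt (3 * C0) * ‖w‖ = Real.sqrt (3 * C0 * ‖w‖ ^ 2) := by
      rw [Real.sqrt_mul (by positivity : (0:ℝ) ≤ 3 * C0) (‖w‖ ^ 2), Real.sqrt_sq (norm_nonneg w)]
    rw [h5]
    apply Real.abs_le_sqrt
    calc g x w (A a) ^ 2 ≤ g x w w := h4
      _ ≤ C0 * Helper64.RF.sq w := h1
      _ ≤ C0 * (3 * ‖w‖ ^ 2) := mul_le_mul_of_nonneg_left h2 hC0.le
      _ = 3 * C0 * ‖w‖ ^ 2 := by ring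
  -- components of the defect
  have hcomp : ∀ a b c f, |g x (TT g G x (A a) (A b) (A c)) (A f)| ≤ 9 * mu := by
    intro a b c f
    have h1 : g x (TT g G x (A a) (A b) (A c)) (A f) =
        - ∑ l, ∑ k, eps a b l * (N l k - (if l = k then 1 else 0)) * eps k c f := by
      have e1 : g x (TT g G x (A a) (A b) (A c)) (A f) =
          g x (Rm G x (A a) (A b) (A c)) (A f) - (g x (A b) (A c) * g x (A a) (A f)
            - g x (A a) (A c) * g x (A b) (A f)) := by
        simp [TT]
      rw [e1, hN a b c f, hA, hA, hA, hA]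
      have e2 : ∑ l, ∑ k, eps a b l * (N l k - (if l = k then 1 else 0)) * eps k c f
          = ∑ l, ∑ k, eps a b l * N l k * eps k c f - ∑ l, eps a b l * eps l c f := by
        rw [← Finset.sum_sub_distrib]
        refine Finset.sum_congr rfl (fun l _ => ?_)
        have : ∀ k, eps a b l * (N l k - (if l = k then 1 else 0)) * eps k c f =
            eps a b l * N l k * eps k c f - (if l = k then eps a b l * eps k c f else 0) := by
          intro k
          split_ifs <;> ring
        simp only [this]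
        rw [Finset.sum_sub_distrib]
        simp
      rw [e2, eps_contr]
      ring
    rw [h1, abs_neg]
    have h2 : ∀ l k, |eps a b l * (N l k - (if l = k then 1 else 0)) * eps k c f| ≤ mu := by
      intro l k
      rw [abs_mul, abs_mul]
      calc |eps a b l| * |N l k - (if l = k then 1 else 0)| * |eps k c f|
          ≤ 1 * mu * 1 := by
            apply mul_le_mul _ (eps_le _ _ _) (abs_nonneg _) (by positivity)
            exact mul_le_mul (eps_le _ _ _) (hNm l k) (abs_nonneg _) zero_le_one
        _ = mu := by ring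
    calc |∑ l, ∑ k, eps a b l * (N l k - (if l = k then 1 else 0)) * eps k c f|
        ≤ ∑ l, ∑ k, |eps a b l * (N l k - (if l = k then 1 else 0)) * eps k c f| :=
          (Finset.abs_sum_le_sum_abs _ _).trans
            (Finset.sum_le_sum (fun l _ => Finset.abs_sum_le_sum_abs _ _))
      _ ≤ ∑ l : Fin 3, ∑ k : Fin 3, mu :=
          Finset.sum_le_sum (fun l _ => Finset.sum_le_sum (fun k _ => h2 l k))
      _ = 9 * mu := by simp; ring
  have hT : ∀ a b c, ‖TT g G x (A a) (A b) (A c)‖ ≤ 27 * mu * (Real.sqrt c0)⁻¹ := by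
    intro a b c
    conv_lhs => rw [orth_expand hA (TT g G x (A a) (A b) (A c))]
    refine (norm_sum_le _ _).trans ?_
    calc ∑ f, ‖g x (TT g G x (A a) (A b) (A c)) (A f) • A f‖
        ≤ ∑ f : Fin 3, 9 * mu * (Real.sqrt c0)⁻¹ := by
          refine Finset.sum_le_sum (fun f _ => ?_)
          rw [norm_smul, Real.norm_eq_abs]
          exact mul_le_mul (hcomp a b c f) (hnA f) (norm_nonneg _) (by positivity)
      _ = 27 * mu * (Real.sqrt c0)⁻¹ := by simp; ring
  have hmain : ‖TT g G x u v z‖ ≤
      729 * Real.sqrt (3 * C0) ^ 3 * (Real.sqrt c0)⁻¹ * mu * ‖u‖ * ‖v‖ * ‖z‖ := by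
    have e := expand (g := g) (G := G) (x := x) A (fun a => g x u (A a)) (fun a => g x v (A a))
      (fun a => g x z (A a))
    rw [← orth_expand hA u, ← orth_expand hA v, ← orth_expand hA z] at e
    rw [e]
    set S := Real.sqrt (3 * C0) with hS
    have hS0 : 0 ≤ S := Real.sqrt_nonneg _
    set s := (Real.sqrt c0)⁻¹ with hs
    have hs0 : 0 ≤ s := by positivity
    have hterm : ∀ i j k, ‖(g x u (A i) * g x v (A j) * g x z (A k)) • TT g G x (A i) (A j) (A k)‖
        ≤ ((S * ‖u‖) * (S * ‖v‖) * (S * ‖z‖)) * (27 * mu * s) := by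
      intro i j k
      rw [norm_smul, Real.norm_eq_abs, abs_mul, abs_mul]
      apply mul_le_mul _ (hT i j k) (norm_nonneg _) (by positivity)
      apply mul_le_mul _ (hcoef z k) (abs_nonneg _) (by positivity)
      exact mul_le_mul (hcoef u i) (hcoef v j) (abs_nonneg _) (by positivity)
    calc ‖∑ i, ∑ j, ∑ k, (g x u (A i) * g x v (A j) * g x z (A k)) • TT g G x (A i) (A j) (A k)‖
        ≤ ∑ i : Fin 3, ∑ j : Fin 3, ∑ k : Fin 3,
          ((S * ‖u‖) * (S * ‖v‖) * (S * ‖z‖)) * (27 * mu * s) := by
          refine (norm_sum_le _ _).trans (Finset.sum_le_sum (fun i _ => ?_))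
          refine (norm_sum_le _ _).trans (Finset.sum_le_sum (fun j _ => ?_))
          exact (norm_sum_le _ _).trans (Finset.sum_le_sum (fun k _ => hterm i j k))
      _ = _ := by simp; ring
  exact hmain

end Pool.Agent.Helper9.RF
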