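import Pool.Agent.Helper64.RF.GoalsM

/-!
Packet PIN of project RF (MP_c98eff_gt): pinching in terms of the curvature operator.
-/

open Quaternion

namespace Pool.Agent.Helper9.RF

open Pool.Agent.Helper64.RF

open Pool.Agent.Helper47.RF (MF IsMetric Sm E ip eps gdist gvol PinchedAt sec curv ar)

namespace Pin

/-- a quadrilinear form -/
def M4 (R : Fin 3 → Fin 3 → Fin 3 → Fin 3 → ℝ) (a b c d : Fin 3 → ℝ) : ℝ :=
  ∑ i, ∑ j, ∑ k, ∑ l, R i j k l * a i * b j * c k * d l

/-- linear combination of the frame -/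
def cb (A : Fin 3 → Fin 3 → ℝ) (p : Fin 3 → ℝ) : Fin 3 → ℝ := fun i => ∑ a, p a * A a i

theorem M4_1 (R : Fin 3 → Fin 3 → Fin 3 → Fin 3 → ℝ) (A : Fin 3 → Fin 3 → ℝ)
    (p b c d : Fin 3 → ℝ) : M4 R (cb A p) b c d = ∑ a, p a * M4 R (A a) b c d := by
  have h : ∀ w, M4 R w b c d = ∑ i, w i * ∑ j, ∑ k, ∑ l, R i j k l * b j * c k * d l := by
    intro w
    simp only [M4, Finset.mul_sum]
    refine Finset.sum_congr rfl (fun i _ => Finset.sum_congr rfl (fun j _ =>
      Finset.sum_congr rfl (fun k _ => Finset.sum_congr rfl (fun l _ => by ring))))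
  simp only [h, cb]
  simp only [Finset.sum_mul]
  rw [Finset.sum_comm]
  refine Finset.sum_congr rfl (fun a _ => ?_)
  rw [Finset.mul_sum]
  exact Finset.sum_congr rfl (fun i _ => by ring)

theorem M4_2 (R : Fin 3 → Fin 3 → Fin 3 → Fin 3 → ℝ) (A : Fin 3 → Fin 3 → ℝ)
    (p b c d : Fin 3 → ℝ) : M4 R b (cb A p) c d = ∑ a, p a * M4 R b (A a) c d := by
  have h : ∀ w, M4 R b w c d = ∑ j, w j * ∑ i, ∑ k, ∑ l, R i j k l * b i * c k * d l := by
    intro w
    simp only [M4, Finset.mul_sum]
    rw [Finset.sum_comm]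
    refine Finset.sum_congr rfl (fun i _ => Finset.sum_congr rfl (fun j _ =>
      Finset.sum_congr rfl (fun k _ => Finset.sum_congr rfl (fun l _ => by ring))))
  simp only [h, cb]
  simp only [Finset.sum_mul]
  rw [Finset.sum_comm]
  refine Finset.sum_congr rfl (fun a _ => ?_)
  rw [Finset.mul_sum]
  exact Finset.sum_congr rfl (fun i _ => by ring)

theorem M4_swap (R : Fin 3 → Fin 3 → Fin 3 → Fin 3 → ℝ) (a b c d : Fin 3 → ℝ) :
    M4 R a b c d = M4 (fun i j k l => R k l i j) c d a b := by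
  unfold M4
  calc ∑ i, ∑ j, ∑ k, ∑ l, R i j k l * a i * b j * c k * d l
      = ∑ i, ∑ k, ∑ j, ∑ l, R i j k l * a i * b j * c k * d l :=
        Finset.sum_congr rfl (fun i _ => Finset.sum_comm)
    _ = ∑ k, ∑ i, ∑ j, ∑ l, R i j k l * a i * b j * c k * d l := Finset.sum_comm
    _ = ∑ k, ∑ i, ∑ l, ∑ j, R i j k l * a i * b j * c k * d l :=
        Finset.sum_congr rfl (fun k _ => Finset.sum_congr rfl (fun i _ => Finset.sum_comm))
    _ = ∑ k, ∑ l, ∑ i, ∑ j, R i j k l * a i * b j * c k * d l :=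
        Finset.sum_congr rfl (fun k _ => Finset.sum_comm)
    _ = _ := Finset.sum_congr rfl (fun i _ => Finset.sum_congr rfl (fun j _ =>
      Finset.sum_congr rfl (fun k _ => Finset.sum_congr rfl (fun l _ => by ring))))

theorem M4_3 (R : Fin 3 → Fin 3 → Fin 3 → Fin 3 → ℝ) (A : Fin 3 → Fin 3 → ℝ)
    (p b c d : Fin 3 → ℝ) : M4 R b c (cb A p) d = ∑ a, p a * M4 R b c (A a) d := by
  rw [M4_swap, M4_1]
  exact Finset.sum_congr rfl (fun a _ => by rw [M4_swap R])

theorem M4_4 (R : Fin 3 → Fin 3 → Fin 3 → Fin 3 → ℝ) (A : Fin 3 → Fin 3 → ℝ)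
    (p b c d : Fin 3 → ℝ) : M4 R b c d (cb A p) = ∑ a, p a * M4 R b c d (A a) := by
  rw [M4_swap, M4_2]
  exact Finset.sum_congr rfl (fun a _ => by rw [M4_swap R])

/-- the cross product -/
def cr (p q : Fin 3 → ℝ) : Fin 3 → ℝ :=
  ![p 1 * q 2 - p 2 * q 1, p 2 * q 0 - p 0 * q 2, p 0 * q 1 - p 1 * q 0]

theorem cr_eq (p q : Fin 3 → ℝ) (l : Fin 3) : cr p q l = ∑ c, ∑ d, p c * q d * eps c d l := by
  fin_cases l <;> simp [cr, eps, Fin.sum_univ_three] <;> ring

theorem eps_rot (k b f : Fin 3) : eps k b f = eps b f k := by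
  fin_cases k <;> fin_cases b <;> fin_cases f <;> norm_num [eps]

theorem quad (N : Matrix (Fin 3) (Fin 3) ℝ) (p q : Fin 3 → ℝ) :
    ∑ c, p c * ∑ d, q d * ∑ b, q b * ∑ f, p f * (- ∑ l, ∑ k, eps c d l * N l k * eps k b f)
      = ∑ i, ∑ j, N i j * cr p q i * cr p q j := by
  have h1 : ∀ c d b, ∑ f, p f * (- ∑ l, ∑ k, eps c d l * N l k * eps k b f)
      = - ∑ l, ∑ k, eps c d l * N l k * (∑ f, p f * eps b f k) := by
    intro c d b
    simp only [eps_rot _ b]
    generalize (fun l => eps c d l) = e1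
    simp only [Fin.sum_univ_three]
    ring
  have h2 : ∀ c d, ∑ b, q b * (- ∑ l, ∑ k, eps c d l * N l k * (∑ f, p f * eps b f k))
      = ∑ l, ∑ k, eps c d l * N l k * cr p q k := by
    intro c d
    have h3 : ∀ k, cr p q k = - ∑ b, ∑ f, q b * p f * eps b f k := by
      intro k
      rw [← cr_eq]
      fin_cases k <;> simp [cr] <;> ring
    simp only [h3]
    generalize (fun l => eps c d l) = e1
    simp only [Fin.sum_univ_three]
    ring
  simp only [h1, h2]
  have h4 : ∑ c, p c * ∑ d, q d * ∑ l, ∑ k, eps c d l * N l k * cr p q k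
      = ∑ l, ∑ k, N l k * (∑ c, ∑ d, p c * q d * eps c d l) * cr p q k := by
    generalize cr p q = w
    simp only [Fin.sum_univ_three]
    ring
  rw [h4]
  simp only [← cr_eq]

/-- dot product -/
def dt (p q : Fin 3 → ℝ) : ℝ := ∑ i, p i * q i

theorem dt_comm (p q : Fin 3 → ℝ) : dt p q = dt q p := by
  unfold dt
  exact Finset.sum_congr rfl (fun i _ => by ring)

theorem ip_cb {gm : MF} {x : ℍ[ℝ]} {A : Fin 3 → Fin 3 → ℝ}
    (h : ∀ a b, ip gm x (A a) (A b) = if a = b then 1 else 0) (p q : Fin 3 → ℝ) :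
    ip gm x (cb A p) (cb A q) = dt p q := by
  have h1 : ip gm x (cb A p) (cb A q) = ∑ a, ∑ b, p a * q b * ip gm x (A a) (A b) := by
    simp only [ip, cb, Fin.sum_univ_three]
    ring
  rw [h1]
  simp only [h, dt]
  simp

theorem sec_cb {gm : MF} {x : ℍ[ℝ]} {A : Fin 3 → Fin 3 → ℝ} {N : Matrix (Fin 3) (Fin 3) ℝ}
    (h : FrN gm x A N) {p q : Fin 3 → ℝ} (hp : dt p p = 1) (hq : dt q q = 1)
    (hpq : dt p q = 0) : LinearIndependent ℝ ![cb A p, cb A q] ∧
      sec gm x (cb A p) (cb A q) = ∑ i, ∑ j, N i j * cr p q i * cr p q j := by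
  have hqp : dt q p = 0 := by
    rw [← hpq]; unfold dt; exact Finset.sum_congr rfl (fun i _ => by ring)
  constructor
  · rw [LinearIndependent.pair_iff]
    intro s t hst
    have e : cb A (fun i => s * p i + t * q i) = 0 := by
      rw [← hst]
      funext i
      simp only [cb, Pi.add_apply, Pi.smul_apply, smul_eq_mul, Fin.sum_univ_three]
      ring
    have e1 := ip_cb h.orth p (fun i => s * p i + t * q i)
    have e2 := ip_cb h.orth q (fun i => s * p i + t * q i)
    rw [e] at e1 e2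
    have z : ∀ w, ip gm x w 0 = 0 := by intro w; simp [ip]
    rw [z] at e1 e2
    have d1 : dt p (fun i => s * p i + t * q i) = s * dt p p + t * dt p q := by
      simp only [dt, Fin.sum_univ_three]; ring
    have d2 : dt q (fun i => s * p i + t * q i) = s * dt q p + t * dt q q := by
      simp only [dt, Fin.sum_univ_three]; ring
    rw [d1, hp, hpq] at e1
    rw [d2, hqp, hq] at e2
    constructor <;> linarith
  · have ha : ar gm x (cb A p) (cb A q) = 1 := by
      rw [ar, ip_cb h.orth, ip_cb h.orth, ip_cb h.orth, hp, hq, hpq]; norm_num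
    rw [sec, ha, div_one]
    have hc : curv gm x (cb A p) (cb A q)
        = M4 (fun i j k l => Pool.Agent.Helper47.RF.Rm gm i j k l x)
          (cb A p) (cb A q) (cb A q) (cb A p) := rfl
    rw [hc, M4_1]
    simp only [M4_2]
    simp only [M4_3]
    simp only [M4_4]
    have hM : ∀ c d b f, M4 (fun i j k l => Pool.Agent.Helper47.RF.Rm gm i j k l x)
        (A c) (A d) (A b) (A f) = - ∑ l, ∑ k, eps c d l * N l k * eps k b f :=
      fun c d b f => h.curv c d b f
    simp only [hM]
    exact quad N p q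

theorem exists_pair (n : Fin 3 → ℝ) (hn : dt n n = 1) :
    ∃ p q, dt p p = 1 ∧ dt q q = 1 ∧ dt p q = 0 ∧ cr p q = n ∧ dt n p = 0 ∧ dt n q = 0 := by
  obtain ⟨p, hp, hnp⟩ : ∃ p : Fin 3 → ℝ, dt p p = 1 ∧ dt n p = 0 := by
    simp only [dt, Fin.sum_univ_three] at hn ⊢
    by_cases h : n 0 * n 0 + n 1 * n 1 = 0
    · have h0 : n 0 = 0 := by nlinarith [mul_self_nonneg (n 0), mul_self_nonneg (n 1)]
      exact ⟨![1, 0, 0], by simp, by simp [h0]⟩
    · have hpos : 0 < n 0 * n 0 + n 1 * n 1 :=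
        lt_of_le_of_ne (by nlinarith [mul_self_nonneg (n 0), mul_self_nonneg (n 1)]) (Ne.symm h)
      set r := (Real.sqrt (n 0 * n 0 + n 1 * n 1))⁻¹ with hr
      have hr2 : r * r = (n 0 * n 0 + n 1 * n 1)⁻¹ := by
        rw [hr, ← mul_inv, Real.mul_self_sqrt hpos.le]
      refine ⟨![- (r * n 1), r * n 0, 0], ?_, ?_⟩
      · simp
        have : r * n 1 * (r * n 1) + r * n 0 * (r * n 0) = r * r * (n 0 * n 0 + n 1 * n 1) := by
          ring
        rw [this, hr2, inv_mul_cancel₀ h]
      · simp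
        ring
  refine ⟨p, cr n p, hp, ?_, ?_, ?_, hnp, ?_⟩
  · have : dt (cr n p) (cr n p) = dt n n * dt p p - dt n p ^ 2 := by
      simp [dt, cr, Fin.sum_univ_three]; ring
    rw [this, hn, hp, hnp]; norm_num
  · simp [dt, cr, Fin.sum_univ_three]; ring
  · have : ∀ i, cr p (cr n p) i = n i * dt p p - p i * dt n p := by
      intro i
      fin_cases i <;> simp [dt, cr, Fin.sum_univ_three] <;> ring
    funext i
    rw [this, hp, hnp]; ring
  · simp [dt, cr, Fin.sum_univ_three]; ring

end Pin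

open Pin

theorem pin : PIN := by
  intro gm _ x δ hδ hP A N h
  let s : (Fin 3 → ℝ) → ℝ := fun n => ∑ i, ∑ j, N i j * n i * n j
  have hs : ∀ n, dt n n = 1 → ∃ u v, LinearIndependent ℝ ![u, v] ∧ sec gm x u v = s n := by
    intro n hn
    obtain ⟨p, q, hp, hq, hpq, hc, _, _⟩ := exists_pair n hn
    have := sec_cb h hp hq hpq
    rw [hc] at this
    exact ⟨_, _, this.1, this.2⟩
  have hlt : ∀ n m, dt n n = 1 → dt m m = 1 → 0 < s n ∧ δ * s m < s n := by
    intro n m hn hm
    obtain ⟨u, v, h1, h2⟩ := hs n hn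
    obtain ⟨u', v', h1', h2'⟩ := hs m hm
    have := hP u v u' v' h1 h1'
    rw [h2, h2'] at this
    exact this
  have htr : ∀ n, dt n n = 1 → δ / (δ + 2) * N.trace ≤ s n := by
    intro n hn
    obtain ⟨p, q, hp, hq, hpq, hc, hnp, hnq⟩ := exists_pair n hn
    have a1 := (hlt n p hn hp).2
    have a2 := (hlt n q hn hq).2
    have a3 : N.trace = s n + s p + s q := by
      let O : Matrix (Fin 3) (Fin 3) ℝ := Matrix.of ![n, p, q]
      have hO : O * O.transpose = 1 := by
        have hpn : dt p n = 0 := by rw [dt_comm, hnp]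
        have hqn : dt q n = 0 := by rw [dt_comm, hnq]
        have hqp : dt q p = 0 := by rw [dt_comm, hpq]
        simp only [dt] at hn hp hq hpq hnp hnq hpn hqn hqp
        ext i j
        rw [Matrix.mul_apply]
        simp only [Matrix.transpose_apply]
        fin_cases i <;> fin_cases j <;> simp [O, hn, hp, hq, hpq, hnp, hnq, hpn, hqn, hqp]
      have hO2 : O.transpose * O = 1 := mul_eq_one_comm.mp hO
      have hij : ∀ i j, n i * n j + p i * p j + q i * q j = if i = j then 1 else 0 := by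
        intro i j
        have := congrFun (congrFun hO2 i) j
        rw [Matrix.mul_apply, Matrix.one_apply, Fin.sum_univ_three] at this
        simpa [O] using this
      have e : s n + s p + s q = ∑ i, ∑ j, N i j * (n i * n j + p i * p j + q i * q j) := by
        simp only [s]
        rw [← Finset.sum_add_distrib, ← Finset.sum_add_distrib]
        refine Finset.sum_congr rfl (fun i _ => ?_)
        rw [← Finset.sum_add_distrib, ← Finset.sum_add_distrib]
        exact Finset.sum_congr rfl (fun j _ => by ring)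
      rw [e]
      simp only [hij]
      simp [Matrix.trace]
    rw [div_mul_eq_mul_div, div_le_iff₀ (by linarith), a3]
    nlinarith
  constructor
  · have e : N.trace = s ![1, 0, 0] + s ![0, 1, 0] + s ![0, 0, 1] := by
      simp [s, Matrix.trace, Fin.sum_univ_three]
    have b0 := (hlt ![1, 0, 0] ![1, 0, 0] (by simp [dt, Fin.sum_univ_three])
      (by simp [dt, Fin.sum_univ_three])).1
    have b1 := (hlt ![0, 1, 0] ![0, 1, 0] (by simp [dt, Fin.sum_univ_three])
      (by simp [dt, Fin.sum_univ_three])).1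
    have b2 := (hlt ![0, 0, 1] ![0, 0, 1] (by simp [dt, Fin.sum_univ_three])
      (by simp [dt, Fin.sum_univ_three])).1
    rw [e]; linarith
  · intro n
    by_cases hn : ∑ i, n i ^ 2 = 0
    · have h0 : ∀ i, n i = 0 := by
        intro i
        have := (Finset.sum_eq_zero_iff_of_nonneg (fun i _ => sq_nonneg (n i))).mp hn i
          (Finset.mem_univ i)
        exact pow_eq_zero_iff (two_ne_zero) |>.mp this
      simp [h0]
    · have hpos : 0 < ∑ i, n i ^ 2 :=
        lt_of_le_of_ne (Finset.sum_nonneg (fun i _ => sq_nonneg (n i))) (Ne.symm hn)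
      set t := ∑ i, n i ^ 2 with ht
      set r := (Real.sqrt t)⁻¹ with hr
      have hr2 : r * r = t⁻¹ := by rw [hr, ← mul_inv, Real.mul_self_sqrt hpos.le]
      have h1 : dt (fun i => r * n i) (fun i => r * n i) = 1 := by
        have : dt (fun i => r * n i) (fun i => r * n i) = r * r * t := by
          simp only [dt, ht, Finset.mul_sum]
          exact Finset.sum_congr rfl (fun i _ => by ring)
        rw [this, hr2, inv_mul_cancel₀ hn]
      have h2 := htr _ h1
      have h3 : s (fun i => r * n i) = r * r * s n := by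
        simp only [s, Finset.mul_sum]
        exact Finset.sum_congr rfl (fun i _ => Finset.sum_congr rfl (fun j _ => by ring))
      rw [h3, hr2, inv_mul_eq_div, le_div_iff₀ hpos] at h2
      exact h2

end Pool.Agent.Helper9.RF
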