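import Pool.Agent.Helper73.RF.GoalsB

/-!
Packet MP2 of project RF (MP_c98eff_gt): the strict maximum principle on the frame bundle.
-/

set_option autoImplicit false

open Topology Filter

namespace Pool.Agent.Helper9.RF

open Pool.Agent.Helper73.RF

theorem mp2 : Mp2Stmt := by
  intro T F hB f t1 T1 ht1 hT1 hδ hH
  obtain ⟨δ, hδ0, hδ1⟩ := hδ
  by_contra hcon
  push Not at hcon
  obtain ⟨z0, t0, ht01, ht02, hz0⟩ := hcon
  have ht0δ : t1 + δ ≤ t0 := by
    by_contra h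
    exact absurd (hδ1 z0 t0 ht01 (not_le.mp h)) (not_lt.mpr hz0)
  -- the compact interval
  have hmem : ∀ s : Set.Icc (t1 + δ) T1, (s : ℝ) ∈ Set.Ioo (0:ℝ) T := by
    intro s
    exact ⟨by linarith [s.2.1], by linarith [s.2.2]⟩
  let c : Set.Icc (t1 + δ) T1 → TI T := fun s => ⟨s, hmem s⟩
  have hc : Continuous c := Continuous.subtype_mk continuous_subtype_val _
  let φ : F.Z × Set.Icc (t1 + δ) T1 → ℝ := fun p => F.ev p.1 (c p.2) f
  have hφ : Continuous φ := by
    have h1 := hB.cont f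
    have h2 : Continuous (fun p : F.Z × Set.Icc (t1 + δ) T1 => (p.1, c p.2)) :=
      continuous_fst.prodMk (hc.comp continuous_snd)
    exact h1.comp h2
  have hK : IsCompact {p : F.Z × Set.Icc (t1 + δ) T1 | φ p ≤ 0} :=
    (isClosed_le hφ continuous_const).isCompact
  have hne : {p : F.Z × Set.Icc (t1 + δ) T1 | φ p ≤ 0}.Nonempty :=
    ⟨(z0, ⟨t0, ht0δ, ht02⟩), hz0⟩
  have hsnd : Continuous (fun p : F.Z × Set.Icc (t1 + δ) T1 => (p.2 : ℝ)) :=
    continuous_subtype_val.comp continuous_snd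
  obtain ⟨⟨z, s⟩, hzs, hmin⟩ := hK.exists_isMinOn hne hsnd.continuousOn
  have hzs' : F.ev z (c s) f ≤ 0 := hzs
  have hs1 : t1 < (c s : ℝ) := by
    have := s.2.1
    show t1 < (s : ℝ)
    linarith
  have hs2 : (c s : ℝ) ≤ T1 := s.2.2
  -- positivity before the first time
  have hpos : ∀ (z' : F.Z) (t : TI T), t1 < (t : ℝ) → (t : ℝ) < c s → 0 < F.ev z' t f := by
    intro z' t h1 h2
    by_cases h3 : (t : ℝ) < t1 + δ
    · exact hδ1 z' t h1 h3
    · by_contra h4
      have h5 : (t : ℝ) ≤ T1 := by linarith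
      have h6 := hmin (show (z', (⟨t, not_lt.mp h3, h5⟩ : Set.Icc (t1 + δ) T1)) ∈
        {p : F.Z × Set.Icc (t1 + δ) T1 | φ p ≤ 0} from not_lt.mp h4)
      have h7 : (s : ℝ) ≤ (t : ℝ) := h6
      have h8 : (t : ℝ) < (s : ℝ) := h2
      linarith
  -- filter of times approaching from the left
  have hev : ∀ᶠ r in 𝓝[<] (s : ℝ), t1 < r := by
    exact mem_nhdsWithin_of_mem_nhds (Ioi_mem_nhds hs1)
  have hev2 : ∀ᶠ r in 𝓝[<] (s : ℝ), r < (c s : ℝ) := self_mem_nhdsWithin
  have hval : ∀ (z' : F.Z) (r : ℝ) (h : r ∈ Set.Ioo (0:ℝ) T), F.val z' f r = F.ev z' ⟨r, h⟩ f := by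
    intro z' r h
    unfold FBD.val
    rw [dif_pos h]
  have hvalc : ∀ z' : F.Z, F.val z' f (c s) = F.ev z' (c s) f := by
    intro z'
    rw [hval z' (c s) (c s).2]
  have hvpos : ∀ (z' : F.Z) (r : ℝ), t1 < r → r < c s → 0 < F.val z' f r := by
    intro z' r h1 h2
    have h3 : r ∈ Set.Ioo (0:ℝ) T := ⟨by linarith, by linarith⟩
    rw [hval z' r h3]
    exact hpos z' ⟨r, h3⟩ h1 h2
  have hnn : ∀ z' : F.Z, 0 ≤ F.ev z' (c s) f := by
    intro z'
    have h1 := (hB.time f z' (c s)).continuousAt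
    have h2 : Tendsto (F.val z' f) (𝓝[<] (s : ℝ)) (𝓝 (F.val z' f (c s))) :=
      h1.tendsto.mono_left nhdsWithin_le_nhds
    rw [← hvalc z']
    refine ge_of_tendsto h2 ?_
    filter_upwards [hev, hev2] with r h3 h4
    exact (hvpos z' r h3 h4).le
  have hzero : F.ev z (c s) f = 0 := le_antisymm hzs' (hnn z)
  have hHop := hH z (c s) hs1 hs2 hzero hnn
  have hm := hB.min1 f z (c s) (fun z' => by rw [hzero]; exact hnn z')
  have hD : F.ev z (c s) (F.D f) ≤ 0 := by
    have h1 := (hB.time f z (c s)).hasDerivWithinAt (s := Set.Iio ((c s : ℝ)))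
    rw [hasDerivWithinAt_iff_tendsto_slope' (by simp)] at h1
    refine le_of_tendsto h1 ?_
    filter_upwards [hev, hev2] with r h3 h4
    rw [slope_def_field, hvalc z, hzero, sub_zero]
    exact div_nonpos_of_nonneg_of_nonpos (hvpos z r h3 h4).le (by linarith)
  have hLap : 0 ≤ F.ev z (c s) (F.Lap f) := by
    unfold FBD.Lap
    rw [map_sum]
    exact Finset.sum_nonneg (fun a _ => (hm a).2)
  have : F.ev z (c s) (F.Hop f) = F.ev z (c s) (F.D f) - F.ev z (c s) (F.Lap f) := by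
    unfold FBD.Hop
    rw [map_sub]
  rw [this] at hHop
  linarith

end Pool.Agent.Helper9.RF
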